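import Mathlib
import Pool.Agent.R503.N.FinB

/-!
The sum of the problem beyond the level `1/2`, with the maximum over the residue classes inside the
sum over the divisors `q ≤ x^κ` of the moduli, every `κ < 1/3`.

For all `θ < 43/84`, `κ < 1/3` the moduli are the squarefree `q t ≤ x^θ`, where `q ≤ x^κ` is arbitrary
and `t` is a product of primes in `(x^ε, x^η]`; the residue class is an arbitrary function `a(q)` of
`q`, i.e. a class modulo `q` times the product of the primes in `(x^ε, x^η]` is chosen for each `q`.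

The proof: for each single `q` the primes in the class `a(q)` modulo `q` are distributed over the
classes `a(q)` modulo `q t` with a power saving (method of Zhang and Polymath 8a, for one individual
left modulus; the Weil bound and the completion of sums are from the starting files
`Pool.Agent.Y826.Z`); then the theorem of Bombieri and Vinogradov (starting file
`Pool.Agent.H442R2.KF.Bv`) for the moduli `q`.
-/

set_option autoImplicit false

namespace Pool.Agent.Results.MP_00e23e_nt.MaxInsideLargeDivisor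

open Finset

/-- the number of primes `p ≤ x` with `p ≡ l (mod d)` -/
noncomputable def primePi (x d : ℕ) (l : ℤ) : ℕ :=
  ((Icc 1 x).filter (fun p : ℕ => p.Prime ∧ (p : ℤ) ≡ l [ZMOD d])).card

/-- `E(x; d, l) = π(x; d, l) - li(x)/φ(d)` -/
noncomputable def E (x d : ℕ) (l : ℤ) : ℝ :=
  (primePi x d l : ℝ) - (∫ t in (2 : ℝ)..x, 1 / Real.log t) / (Nat.totient d : ℝ)

/-- the squarefree `q ≤ x^κ` for which `a(q)` is prime to `q` -/
noncomputable def left (x : ℕ) (κ : ℝ) (a : ℕ → ℤ) : Finset ℕ :=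
  (Icc 1 ⌊(x : ℝ) ^ κ⌋₊).filter (fun q : ℕ => Squarefree q ∧ Int.gcd (a q) q = 1)

open Classical in
/-- the positive integers `t` with `q t ≤ x^θ`, `q t` squarefree, `(l, t) = 1`, all of whose prime
factors lie in `(x^ε, x^η]` -/
noncomputable def right (x : ℕ) (θ ε η : ℝ) (q : ℕ) (l : ℤ) : Finset ℕ :=
  (Icc 1 x).filter (fun t : ℕ => ((q * t : ℕ) : ℝ) ≤ (x : ℝ) ^ θ ∧ Squarefree (q * t) ∧
    Int.gcd l t = 1 ∧ ∀ p : ℕ, p.Prime → p ∣ t → (x : ℝ) ^ ε < p ∧ (p : ℝ) ≤ (x : ℝ) ^ η)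

theorem primePi_eq (x d : ℕ) (l : ℤ) : (primePi x d l : ℝ) = Pool.Agent.R503.N.pn x d l := by
  unfold primePi Pool.Agent.R503.N.pn
  congr 2
  ext p
  rw [mem_filter, mem_filter, Int.modEq_iff_dvd, dvd_sub_comm]

/-- **Level `43/84`, with the maximum over the classes inside the sum over the divisors
`q ≤ x^κ`, `κ < 1/3`.** -/
theorem result : ∀ θ κ : ℝ, θ < 43 / 84 → κ < 1 / 3 → ∃ η : ℝ, 0 < η ∧ ∀ ε : ℝ, 0 < ε →
    ∀ U : ℕ, ∃ C : ℝ, 0 < C ∧ ∀ x : ℕ, 3 ≤ x → ∀ a : ℕ → ℤ,
    ∑ q ∈ left x κ a, ∑ t ∈ right x θ ε η q (a q), |E x (q * t) (a q)| ≤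
      C * (x / Real.log x ^ U) := by
  intro θ κ hθ hκ
  obtain ⟨η, hη, h⟩ := Pool.Agent.R503.N.fin_all (max θ (1 / 2)) (max κ 0) (le_max_right _ _)
    (max_lt hθ (by norm_num)) (le_max_right _ _) (max_lt hκ (by norm_num))
  refine ⟨η, hη, fun ε hε U => ?_⟩
  obtain ⟨C, hC, hx⟩ := h ε hε U
  refine ⟨C, hC, fun x hx3 a => ?_⟩
  have hx1 : (1 : ℝ) ≤ x := by exact_mod_cast (by omega : 1 ≤ x)
  have h1 := hx x hx3 a (left x κ a) (fun q => right x θ ε η q (a q)) (by
      intro q hq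
      simp only [left, mem_filter, mem_Icc] at hq
      obtain ⟨⟨h1, h2⟩, h3, h4⟩ := hq
      refine ⟨h1, ?_, Int.isCoprime_iff_gcd_eq_one.2 h4⟩
      calc (q : ℝ) ≤ (⌊(x : ℝ) ^ κ⌋₊ : ℝ) := by exact_mod_cast h2
        _ ≤ (x : ℝ) ^ κ := Nat.floor_le (by positivity)
        _ ≤ (x : ℝ) ^ (max κ 0) := Real.rpow_le_rpow_of_exponent_le hx1 (le_max_left _ _)) (by
      intro q _ t ht
      simp only [right, mem_filter] at ht
      obtain ⟨_, h2, h3, h4, h5⟩ := ht
      refine ⟨h3, Int.isCoprime_iff_gcd_eq_one.2 h4, h5, ?_⟩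
      push_cast at h2
      exact h2.trans (Real.rpow_le_rpow_of_exponent_le hx1 (le_max_left _ _)))
  unfold E
  simp only [primePi_eq]
  exact h1

end Pool.Agent.Results.MP_00e23e_nt.MaxInsideLargeDivisor
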