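import Pool.Agent.R490.Lone

set_option autoImplicit false

/-!
# The mean absolute error for almost primes at the end of the range of moduli
-/

namespace Pool.Agent.Results.MP_00e23e_nt.MeanErrorEndpoint

open Finset Filter

/-- the density: the product of `1 - 1 / p` over the primes `p ≤ y` not dividing `q` -/
noncomputable def V (q y : ℕ) : ℝ :=
  ∏ p ∈ (Finset.range (y + 1)).filter (fun p => p.Prime ∧ ¬ p ∣ q), (1 - 1 / (p : ℝ))

open Classical in
/-- the number of the `1 ≤ h ≤ T` for which `n + q h` has no prime factor `≤ y` -/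
noncomputable def W (q y T n : ℕ) : ℕ :=
  ((Icc 1 T).filter (fun h => ∀ p : ℕ, p.Prime → p ≤ y → ¬ p ∣ n + q * h)).card

/-- the mean absolute deviation of the Poisson distribution with mean `x` -/
noncomputable def poissonDev (x : ℝ) : ℝ := 2 * Real.exp (-x) * x ^ (⌊x⌋₊ + 1) / (⌊x⌋₊).factorial

/-- **The mean absolute error in the reduced classes of every modulus, at the end of the range.** -/
theorem result (θ x0 ε : ℝ) (hθ : 0 < θ) (hε : 0 < ε) :
    ∃ r0 : ℕ, 2 ≤ r0 ∧ ∀ r : ℕ, r0 ≤ r → ∀ᶠ q : ℕ in atTop, ∀ y : ℕ, y = ⌊(q : ℝ) ^ (1 / (r : ℝ))⌋₊ →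
      ∀ Z Y : ℕ, (q : ℝ) ^ θ ≤ Y → ∀ T : ℕ, T * V q y ≤ x0 →
        |∑ n ∈ (Ioc Z (Z + Y)).filter (fun n => n.Coprime q), |(W q y T n : ℝ) - T * V q y| -
          Y * ((q.totient : ℝ) / q) * poissonDev (T * V q y)| ≤ ε * (Y * ((q.totient : ℝ) / q)) := by
  obtain ⟨ε1, hε1⟩ : ∃ ε1 : ℝ, ε1 = ε / (4 * (|x0| + 1)) := ⟨_, rfl⟩
  have hx0 : (0 : ℝ) ≤ |x0| := abs_nonneg x0
  have hε10 : 0 < ε1 := by rw [hε1]; positivity
  obtain ⟨r1, hr1, h1⟩ := R490.Lone.low1 θ x0 (ε / 4) hθ (by positivity)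
  obtain ⟨r2, hr2, h2⟩ := R490.Lone.card_cop θ ε1 hθ hε10
  obtain ⟨r3, hr3, h3⟩ := R490.Mean.mean θ ε1 hθ hε10
  refine ⟨max r1 (max r2 r3), hr1.trans (le_max_left _ _), ?_⟩
  intro r hr
  filter_upwards [h1 r ((le_max_left _ _).trans hr),
    h2 r (((le_max_left _ _).trans (le_max_right _ _)).trans hr),
    h3 r (((le_max_right _ _).trans (le_max_right _ _)).trans hr)] with q g1 g2 g3
  intro y hy Z Y hY T hT
  have eW : ∀ n, W q y T n = R490.Cls.cnt q y T n := fun n => rfl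
  have eV : V q y = R490.Cls.V q y := rfl
  simp only [eW]
  rw [eV] at hT ⊢
  have k1 := g1 y hy Z Y hY T hT
  have k2 := g2 Z Y hY
  have k3 := g3 y hy Z Y hY T
  have e1 : (Ioc Z (Z + Y)).filter (fun n => n.Coprime q) = R490.Lone.Om q Z Y := rfl
  rw [e1] at k3 ⊢
  have hV0 : 0 ≤ R490.Cls.V q y := by
    rw [← R490.Cls.V_eq]
    exact Pool.Agent.TH464.PO.Vq_nonneg _ _
  obtain ⟨N, hN⟩ : ∃ N, N = (Y : ℝ) * ((q.totient : ℝ) / q) := ⟨_, rfl⟩
  obtain ⟨x, hx⟩ : ∃ x, x = T * R490.Cls.V q y := ⟨_, rfl⟩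
  have hxx : 0 ≤ x := by rw [hx]; positivity
  have hN0 : 0 ≤ N := by rw [hN]; positivity
  rw [← hN] at k1 k2 k3 ⊢
  rw [← hx] at k1 k3 hT ⊢
  have e2 : ∑ n ∈ R490.Lone.Om q Z Y, |(R490.Cls.cnt q y T n : ℝ) - x| =
      2 * ∑ n ∈ R490.Lone.Om q Z Y, max (x - R490.Cls.cnt q y T n) 0 +
        (∑ n ∈ R490.Lone.Om q Z Y, (R490.Cls.cnt q y T n : ℝ) - (R490.Lone.Om q Z Y).card * x) := by
    simp only [R490.Lone.abs_eq]
    rw [Finset.sum_add_distrib, ← Finset.mul_sum, Finset.sum_sub_distrib, Finset.sum_const, nsmul_eq_mul]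
  have e3 : poissonDev x = 2 * (x * R490.Lone.pw x ⌊x⌋₊) := by
    unfold poissonDev R490.Lone.pw
    rw [pow_succ]
    ring
  rw [e2, e3]
  have hxx0 : x ≤ |x0| := hT.trans (le_abs_self _)
  have k4 : |(R490.Lone.Om q Z Y).card * x - N * x| ≤ ε / 4 * N := by
    rw [← sub_mul, abs_mul, abs_of_nonneg hxx]
    calc |((R490.Lone.Om q Z Y).card : ℝ) - N| * x ≤ (ε1 * N) * (|x0| + 1) := by
          apply mul_le_mul k2 (by linarith) hxx (by positivity)
      _ = ε / 4 * N := by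
        rw [hε1]
        field_simp
  have k5 : ε1 * (x * N) ≤ ε / 4 * N := by
    calc ε1 * (x * N) ≤ ε1 * ((|x0| + 1) * N) := by
          apply mul_le_mul_of_nonneg_left _ hε10.le
          apply mul_le_mul_of_nonneg_right _ hN0
          linarith
      _ = ε / 4 * N := by
        rw [hε1]
        field_simp
  have m1 := abs_le.1 k1
  have m3 := abs_le.1 (k3.trans k5)
  have m4 := abs_le.1 k4
  have e4 : x * N = N * x := mul_comm _ _
  rw [e4] at m3
  rw [abs_le]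
  constructor <;> nlinarith

end Pool.Agent.Results.MP_00e23e_nt.MeanErrorEndpoint
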