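import Mathlib
import Pool.Agent.R503.T.Fin

/-!
The sum of the problem beyond the level `1/2`, with the maximum over the residue classes inside the
sum over the divisors `q ≤ x^κ` of the moduli, every `κ < 1/3`, and then inside the sums over the
further prime factors `p₁, p₂, …`, one after the other:
`∑_q max_{c mod q} ∑_{p₁} max_{a₁ mod q p₁, a₁ ≡ c (q)} ∑_{p₂} max_{a₂ mod q p₁ p₂, a₂ ≡ a₁ (q p₁)} ⋯`;
the moduli `q p₁ ⋯ p_k` go up to `x^θ`, every `θ < 103/204`, and the class modulo the last part of the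
modulus, beyond `x^(1/2 - σ)`, is completely free.

The proof: the power saving for each single `q` (`Pool.Agent.R503.T`: bilinear forms, dispersion and
the `q`-van der Corput process for one individual left modulus and arbitrary classes modulo its
multiples; the Weil bound and the completion of sums are from the starting files
`Pool.Agent.Y826.Z`); then the theorem of Bombieri and Vinogradov (starting file
`Pool.Agent.H442R2.KF.Bv`) for the moduli `q`.
-/

set_option autoImplicit false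

namespace Pool.Agent.Results.MP_00e23e_nt.NestedMaximum

open Finset

/-- the number of primes `p ≤ x` with `p ≡ l (mod d)` -/
noncomputable def primePi (x d : ℕ) (l : ℤ) : ℕ :=
  ((Icc 1 x).filter (fun p : ℕ => p.Prime ∧ (p : ℤ) ≡ l [ZMOD d])).card

/-- `E(x; d, l) = π(x; d, l) - li(x)/φ(d)` -/
noncomputable def E (x d : ℕ) (l : ℤ) : ℝ :=
  (primePi x d l : ℝ) - (∫ t in (2 : ℝ)..x, 1 / Real.log t) / (Nat.totient d : ℝ)

/-- A finite tree `D` of sequences of primes `(p₁, …, p_k)`, written as the lists `[p_k, …, p₁]`. With a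
sequence it contains its initial segments; `p_j ≤ x^η` for all `j` and `p_j² ≥ x^ρ p_i` for all `i ≤ j`;
the modulus `q p₁ ⋯ p_k` is squarefree and at most `x^θ`. -/
structure PrimeTree (x q : ℕ) (θ ρ η : ℝ) (D : Finset (List ℕ)) : Prop where
  closed : ∀ p l, p :: l ∈ D → l ∈ D
  prime : ∀ p l, p :: l ∈ D → p.Prime ∧ (p : ℝ) ≤ (x : ℝ) ^ η
  order : ∀ p l, p :: l ∈ D → ∀ r ∈ p :: l, (x : ℝ) ^ ρ * r ≤ (p : ℝ) ^ 2
  size : ∀ l ∈ D, Squarefree (q * l.prod) ∧ ((q * l.prod : ℕ) : ℝ) ≤ (x : ℝ) ^ θ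

/-- A choice of reduced residue classes `a(p₁, …, p_k)` modulo `q p₁ ⋯ p_k` along the tree `D`, such that
`a(p₁, …, p_k) ≡ a(p₁, …, p_j) (mod q p₁ ⋯ p_j)` for all `j ≤ k` with `q p₁ ⋯ p_j ≤ x^(1/2 - σ)`. -/
structure AdaptiveClasses (x q : ℕ) (σ : ℝ) (D : Finset (List ℕ)) (a : List ℕ → ℤ) : Prop where
  coprime : ∀ l ∈ D, Int.gcd (a l) ((q * l.prod : ℕ) : ℤ) = 1
  coherent : ∀ l ∈ D, ∀ m, m <:+ l → ((q * m.prod : ℕ) : ℝ) ≤ (x : ℝ) ^ (1 / 2 - σ) →
    a l ≡ a m [ZMOD ((q * m.prod : ℕ) : ℤ)]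

theorem primePi_eq (x d : ℕ) (l : ℤ) : (primePi x d l : ℝ) = Pool.Agent.R503.N.pn x d l := by
  unfold primePi Pool.Agent.R503.N.pn
  congr 2
  ext p
  rw [mem_filter, mem_filter, Int.modEq_iff_dvd, dvd_sub_comm]

theorem PrimeTree.toLS {x q : ℕ} {θ ρ η σ : ℝ} {D : Finset (List ℕ)} {a : List ℕ → ℤ} (hq : 0 < q)
    (T : PrimeTree x q θ ρ η D) (C : AdaptiveClasses x q σ D a) : Pool.Agent.R503.T.LS x q θ ρ η σ a D := by
  have hmem : ∀ l, l ∈ D → ∀ p ∈ l, ∃ m, p :: m ∈ D := by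
    intro l
    induction l with
    | nil => intro _ p hp; simp at hp
    | cons r l ih =>
      intro hl p hp
      rcases List.mem_cons.1 hp with h | h
      · exact ⟨l, by rw [h]; exact hl⟩
      · exact ih (T.closed r l hl) p h
  refine ⟨hq, fun l hl => (T.size l hl).1, ?_, ?_, ?_, T.closed, ?_, ?_⟩
  · intro l hl p hp
    obtain ⟨m, hm⟩ := hmem l hl p hp
    obtain ⟨h1, h2⟩ := T.prime p m hm
    refine ⟨h1, ?_, h2⟩
    have h3 := T.order p m hm p (by simp)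
    have hp0 : (0 : ℝ) < p := by exact_mod_cast h1.pos
    rw [pow_two] at h3
    exact le_of_mul_le_mul_right h3 hp0
  · intro l hl
    have := (T.size l hl).2
    push_cast at this ⊢
    exact this
  · intro l hl
    exact Int.isCoprime_iff_gcd_eq_one.2 (C.coprime l hl)
  · intro l
    induction l with
    | nil => intro _; exact List.Pairwise.nil
    | cons r l ih =>
      intro hl
      rw [List.pairwise_cons]
      exact ⟨fun p hp => T.order r l hl p (List.mem_cons_of_mem _ hp), ih (T.closed r l hl)⟩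
  · intro l hl m hm hle
    have h1 := C.coherent l hl m hm (by push_cast at hle ⊢; exact hle)
    rw [Int.modEq_iff_dvd, dvd_sub_comm] at h1
    exact h1

/-- **The bound of the problem beyond the level `1/2`, with nested maxima over the classes.** -/
theorem result : ∀ θ η ρ σ κ : ℝ, 1 / 2 ≤ θ → 0 < η → 0 ≤ σ → 28 * (θ - 1 / 2) + 20 * η + 15 * σ < 1 / 3 →
    2 * (θ - 1 / 2) + σ < ρ → κ + σ < 1 / 3 → ∀ U : ℕ, ∃ x₀ : ℕ, ∀ x : ℕ, x₀ ≤ x →
    ∀ (D : ℕ → Finset (List ℕ)) (a : ℕ → List ℕ → ℤ),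
    (∀ q ∈ Icc 1 ⌊(x : ℝ) ^ κ⌋₊, PrimeTree x q θ ρ η (D q) ∧ AdaptiveClasses x q σ (D q) (a q)) →
    ∑ q ∈ Icc 1 ⌊(x : ℝ) ^ κ⌋₊, ∑ l ∈ D q, |E x (q * l.prod) (a q l)| ≤ x / Real.log x ^ U := by
  intro θ η ρ σ κ hθ hη hσ h1 h2 hκ U
  have h3 : max κ 0 + σ < 1 / 3 := by
    rcases max_cases κ 0 with h | h
    · rw [h.1]; exact hκ
    · rw [h.1]; linarith
  have hev := Pool.Agent.R503.T.fin_seq θ η ρ σ (max κ 0) hθ hη hσ h1 h2 (le_max_right _ _) h3 U
  obtain ⟨x₀, hx₀⟩ := Filter.eventually_atTop.1 hev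
  refine ⟨max x₀ 1, ?_⟩
  intro x hx D a hDa
  have hx1 : (1 : ℝ) ≤ x := by exact_mod_cast (le_max_right x₀ 1).trans hx
  have h4 := hx₀ x ((le_max_left _ _).trans hx) (Icc 1 ⌊(x : ℝ) ^ κ⌋₊) a D
    (fun q hq => by
      rw [mem_Icc] at hq
      calc (q : ℝ) ≤ (⌊(x : ℝ) ^ κ⌋₊ : ℝ) := by exact_mod_cast hq.2
        _ ≤ (x : ℝ) ^ κ := Nat.floor_le (by positivity)
        _ ≤ (x : ℝ) ^ (max κ 0) := Real.rpow_le_rpow_of_exponent_le hx1 (le_max_left _ _))
    (fun q hq => (hDa q hq).1.toLS (mem_Icc.1 hq).1 (hDa q hq).2)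
  unfold E
  simp only [primePi_eq]
  exact h4

end Pool.Agent.Results.MP_00e23e_nt.NestedMaximum
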