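import Pool.Agent.R490.Mk

set_option autoImplicit false

/-!
# The power means of the error of almost primes in the reduced classes of every modulus
-/

namespace Pool.Agent.Results.MP_00e23e_nt.PowerMeansEveryModulus

open Finset Filter

/-- The product of `1 - 1 / p` over the primes `p ≤ y` which do not divide `q`. -/
noncomputable def V (q y : ℕ) : ℝ :=
  ∏ p ∈ (Finset.range (y + 1)).filter (fun p => p.Prime ∧ ¬ p ∣ q), (1 - 1 / (p : ℝ))

open Classical in
/-- The number of the `1 ≤ h ≤ T` for which `n + q h` has no prime factor `≤ y`: the number of the almost primes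
among the first `T` terms after `n` of the progression of `n` modulo `q`. -/
noncomputable def W (q y T n : ℕ) : ℕ :=
  ((Icc 1 T).filter (fun h => ∀ p : ℕ, p.Prime → p ≤ y → ¬ p ∣ n + q * h)).card

/-- **All power means of the maximal error over the reduced residue classes of EVERY modulus.** Let `θ, ε > 0` and
`k = m + 1 ≥ 1` an exponent. There are `C` and `r0` such that for all `r ≥ r0` the following holds for EVERY large
`q`, with `y = q ^ (1 / r)`, and EVERY interval `(Z, Z + Y]` with `Y ≥ q ^ θ`, for instance a complete system of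
residues (`Y φ(q) / q` is the number of the reduced classes in it): for ALL `T` with `T V ≥ C` and every choice of
`t(n) ≤ T`, the mean over the reduced classes of the `k`-th power of the error `|W - t(n) V|` is at most
`ε (T V) ^ k`. -/
theorem result (θ ε : ℝ) (m : ℕ) (hθ : 0 < θ) (hε : 0 < ε) :
    ∃ (C : ℝ) (r0 : ℕ), 0 < C ∧ 2 ≤ r0 ∧ ∀ r : ℕ, r0 ≤ r → ∀ᶠ q : ℕ in atTop,
      ∀ y : ℕ, y = ⌊(q : ℝ) ^ (1 / (r : ℝ))⌋₊ → ∀ Z Y : ℕ, (q : ℝ) ^ θ ≤ Y → ∀ T : ℕ, C ≤ T * V q y →
        ∀ t : ℕ → ℕ, (∀ n, t n ≤ T) →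
          ∑ n ∈ (Ioc Z (Z + Y)).filter (fun n => n.Coprime q), |(W q y (t n) n : ℝ) - t n * V q y| ^ (m + 1) ≤
            ε * ((T * V q y) ^ (m + 1) * (Y * ((q.totient : ℝ) / q))) :=
  Pool.Agent.R490.Mk.mkmax θ ε m hθ hε

end Pool.Agent.Results.MP_00e23e_nt.PowerMeansEveryModulus
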